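import Mathlib
import Pool.Agent.Q71.DN.Defs

set_option autoImplicit false

namespace Pool.Agent.Q174.DN

open Finset
open Pool.Agent.Q71.DN

/-- Geometric telescoping over one tile. -/
lemma tile_sum (q : ℝ) (hq : 0 < q) (a b : ℕ) (h : a ≤ b) :
    ∑ i ∈ Ico a b, (q - 1) / q ^ (i + 1) = 1 / q ^ a - 1 / q ^ b := by
  induction b, h using Nat.le_induction with
  | base => simp
  | succ n hn ih =>
    rw [Finset.sum_Ico_succ_top hn, ih]
    have : q ^ n ≠ 0 := (pow_pos hq n).ne'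
    field_simp
    ring

/-- Sum over the tiles of a window. -/
lemma win_sum (q : ℝ) (hq : 0 < q) (k l : ℕ) (hk : 1 ≤ k) (S : ℕ → Prop) [DecidablePred S]
    (N : ℕ) :
    ∑ i ∈ Ico l (l + k * N), (if S ((i - l) / k) then q - 1 else 0) / q ^ (i + 1) =
      ∑ n ∈ range N, if S n then (1 / q ^ (l + k * n) - 1 / q ^ (l + k * (n + 1))) else 0 := by
  induction N with
  | zero => simp
  | succ N ih =>
    rw [Finset.sum_range_succ, ← ih,
      ← Finset.sum_Ico_consecutive _ (show l ≤ l + k * N by omega)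
        (show l + k * N ≤ l + k * (N + 1) by nlinarith)]
    congr 1
    have hdiv : ∀ i ∈ Ico (l + k * N) (l + k * (N + 1)), (i - l) / k = N := by
      intro i hi
      rw [Finset.mem_Ico] at hi
      rw [Nat.div_eq_iff (by omega)]
      constructor
      · have : N * k = k * N := Nat.mul_comm _ _
        omega
      · have h1 : N * k = k * N := Nat.mul_comm _ _
        have h2 : k * (N + 1) = k * N + k := by ring
        omega
    by_cases hS : S N
    · rw [if_pos hS, ← tile_sum q hq _ _ (show l + k * N ≤ l + k * (N + 1) by nlinarith)]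
      refine Finset.sum_congr rfl fun i hi => ?_
      rw [hdiv i hi, if_pos hS]
    · rw [if_neg hS]
      refine Finset.sum_eq_zero fun i hi => ?_
      rw [hdiv i hi, if_neg hS, zero_div]

/-- The even tiles give the alternating sum. -/
lemma even_sum (q : ℝ) (k l L : ℕ) :
    (∑ n ∈ range (2 * L), if Even n then (1 / q ^ (l + k * n) - 1 / q ^ (l + k * (n + 1))) else 0) =
      ∑ n ∈ range (2 * L), (-1 : ℝ) ^ n / q ^ (l + k * n) := by
  induction L with
  | zero => simp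
  | succ L ih =>
    rw [show 2 * (L + 1) = 2 * L + 1 + 1 by ring, Finset.sum_range_succ, Finset.sum_range_succ,
      Finset.sum_range_succ (fun n => (-1 : ℝ) ^ n / q ^ (l + k * n)),
      Finset.sum_range_succ (fun n => (-1 : ℝ) ^ n / q ^ (l + k * n)), ih]
    have h1 : Even (2 * L) := even_two_mul L
    have h2 : ¬ Even (2 * L + 1) := by
      rw [Nat.not_even_iff_odd]; exact odd_two_mul_add_one L
    rw [if_pos h1, if_neg h2, h1.neg_one_pow,
      Odd.neg_one_pow (odd_two_mul_add_one L)]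
    ring

lemma dig_top {F : Type} [Field F] [Fintype F] (ψ : F ≃ Fin (Fintype.card F)) (a b : F)
    (h : (ψ a : ℕ) = Fintype.card F - 1) : ψ (a + b) < ψ a ↔ b ≠ 0 := by
  constructor
  · rintro h1 rfl
    rw [add_zero] at h1
    exact lt_irrefl _ h1
  · intro hb
    have h1 : ψ (a + b) ≠ ψ a := by
      intro h2
      have := ψ.injective h2
      exact hb (by simpa using this)
    have h2 : (ψ (a + b) : ℕ) ≠ (ψ a : ℕ) := fun h3 => h1 (Fin.ext h3)
    have h3 : (ψ (a + b) : ℕ) < Fintype.card F := (ψ (a + b)).2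
    rw [Fin.lt_def]
    omega

lemma dig_zero {F : Type} [Field F] [Fintype F] (ψ : F ≃ Fin (Fintype.card F)) (a b : F)
    (h : (ψ a : ℕ) = 0) : ¬ ψ (a + b) < ψ a := by
  rw [Fin.lt_def]; omega

lemma dig_ne {F : Type} [Field F] [Fintype F] (ψ : F ≃ Fin (Fintype.card F)) (a b : F)
    (h : ψ (a + b) < ψ a) : b ≠ 0 := by
  rintro rfl
  rw [add_zero] at h
  exact lt_irrefl _ h

/-- The condition of the box in one coordinate. -/
def BC {F : Type} [Field F] [Fintype F] {m D : ℕ} (φ : Rows F m D) (ψ : Digs F D)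
    (j : Fin (D + 2)) (l u : ℕ) (p κ : Fin m → F) : Prop :=
  ∃ i, l ≤ i ∧ i < u ∧ (∀ i' < i, φ j i' κ = 0) ∧ ψ j i (φ j i p + φ j i κ) < ψ j i (φ j i p)

lemma bc_iff {F : Type} [Field F] [Fintype F] {m D : ℕ} (φ : Rows F m D) (ψ : Digs F D)
    (j : Fin (D + 2)) (k l w : ℕ) (p κ : Fin m → F)
    (hp : ∀ i, l ≤ i → i < l + w →
      (ψ j i (φ j i p) : ℕ) = if Even ((i - l) / k) then Fintype.card F - 1 else 0) :
    BC φ ψ j l (l + w) p κ ↔ FstIn φ j (On k l w) κ := by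
  constructor
  · rintro ⟨i, h1, h2, h3, h4⟩
    have h5 := hp i h1 h2
    by_cases he : Even ((i - l) / k)
    · rw [if_pos he] at h5
      exact ⟨i, ⟨h1, h2, he⟩, (dig_top _ _ _ h5).1 h4, h3⟩
    · rw [if_neg he] at h5
      exact absurd h4 (dig_zero _ _ _ h5)
  · rintro ⟨i, ⟨h1, h2, he⟩, h3, h4⟩
    have h5 := hp i h1 h2
    rw [if_pos he] at h5
    exact ⟨i, h1, h2, h4, (dig_top _ _ _ h5).2 h3⟩

lemma tile_iff (k l1 i n : ℕ) (hk : 1 ≤ k) (hi : l1 ≤ i) :
    (l1 + k * n ≤ i ∧ i < l1 + k * (n + 1)) ↔ (i - l1) / k = n := by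
  rw [Nat.div_eq_iff (by omega)]
  have h1 : n * k = k * n := Nat.mul_comm _ _
  have h2 : k * (n + 1) = k * n + k := by ring
  constructor
  · rintro ⟨h3, h4⟩
    constructor <;> omega
  · rintro ⟨h3, h4⟩
    constructor <;> omega

/-- DN-6. -/
theorem t_Real (h5 : StmGeo) : StmReal := by
  classical
  intro F _ _ m D φ ψ x hx R hR k L l1 l' T p0 p1 hk hL hP
  have hPL : 2 * L - 1 + 1 = 2 * L := by omega
  set w : ℕ := k * (2 * L - 1 + 1) with hw
  set l : Fin (D + 2) → ℕ := Fin.cons (α := fun _ => ℕ) l1 l' with hl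
  set u : Fin (D + 2) → ℕ := fun j => l j + w with hu
  have hlu : ∀ j, l j ≤ u j ∧ u j ≤ m := by
    intro j
    refine ⟨by simp [hu], ?_⟩
    refine Fin.cases ?_ (fun j => ?_) j
    · simpa [hu, hl] using hP.win0
    · simpa [hu, hl] using hP.win j
  have hqpos : (0 : ℝ) < (Fintype.card F : ℝ) := by exact_mod_cast Fintype.card_pos
  have hq1 : 1 ≤ Fintype.card F := Fintype.card_pos
  obtain ⟨hb0, hc0⟩ := h5 F m D φ ψ x hx p0 l u hlu
  obtain ⟨hb1, hc1⟩ := h5 F m D φ ψ x hx p1 l u hlu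
  have hR0 := hR _ _ hb0
  have hR1 := hR _ _ hb1
  rw [hc0] at hR0
  rw [hc1] at hR1
  -- (i) the counts
  have hcount : (univ.filter fun κ : Fin m → F => ∀ j, ∃ i, l j ≤ i ∧ i < u j ∧
          (∀ i' < i, φ j i' κ = 0) ∧ ψ j i (φ j i p1 + φ j i κ) < ψ j i (φ j i p1)).card =
      (univ.filter fun κ : Fin m → F => ∀ j, ∃ i, l j ≤ i ∧ i < u j ∧
          (∀ i' < i, φ j i' κ = 0) ∧ ψ j i (φ j i p0 + φ j i κ) < ψ j i (φ j i p0)).card +
      cT φ k (2 * L - 1) l1 l' T := by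
    have hA : ∀ (p : Fin m → F), (∀ (j : Fin (D + 1)) (i : ℕ), l' j ≤ i → i < l' j + w →
        (ψ j.succ i (φ j.succ i p) : ℕ) =
          if Even ((i - l' j) / k) then Fintype.card F - 1 else 0) → ∀ κ,
        (∀ j, ∃ i, l j ≤ i ∧ i < u j ∧
          (∀ i' < i, φ j i' κ = 0) ∧ ψ j i (φ j i p + φ j i κ) < ψ j i (φ j i p)) ↔
        (BC φ ψ 0 l1 (l1 + w) p κ ∧ ∀ j : Fin (D + 1), FstIn φ j.succ (On k (l' j) w) κ) := by
      intro p hp κ
      rw [Fin.forall_fin_succ]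
      refine and_congr ?_ (forall_congr' fun j => ?_)
      · simp only [hu, hl, Fin.cons_zero]
        rfl
      · simp only [hu, hl, Fin.cons_succ]
        exact bc_iff φ ψ j.succ k (l' j) w p κ (hp j)
    rw [cT, ← Finset.card_union_of_disjoint]
    · congr 1
      ext κ
      simp only [Finset.mem_union, Finset.mem_filter, Finset.mem_univ, true_and]
      rw [hA p1 hP.pat1, hA p0 hP.pat0, ← or_and_right]
      refine and_congr_left fun _ => ?_
      constructor
      · rintro ⟨i, h1, h2, h3, h4⟩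
        by_cases hT : (i - l1) / k ∈ T
        · right
          have h6 := (hP.onT i h1 h2 hT).2
          exact ⟨i, ⟨_, hT, (tile_iff k l1 i _ hk h1).2 rfl⟩, (dig_top _ _ _ h6).1 h4, h3⟩
        · left
          have h6 := hP.offT i h1 h2 hT
          rw [h6] at h4
          exact ⟨i, h1, h2, h3, h4⟩
      · rintro (⟨i, h1, h2, h3, h4⟩ | ⟨i, ⟨n, hn, h1, h2⟩, h3, h4⟩)
        · have hT : (i - l1) / k ∉ T := fun hT =>
            dig_zero _ _ _ (hP.onT i h1 h2 hT).1 h4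
          refine ⟨i, h1, h2, h3, ?_⟩
          rw [hP.offT i h1 h2 hT]
          exact h4
        · have hn' : n + 1 ≤ 2 * L - 1 + 1 := (hP.even n hn).2
          have h5 : k * (n + 1) ≤ w := Nat.mul_le_mul_left k hn'
          have h6 : l1 ≤ i := by omega
          have h7 : i < l1 + w := by omega
          have h8 : (i - l1) / k = n := (tile_iff k l1 i n hk h6).1 ⟨h1, h2⟩
          exact ⟨i, h6, h7, h4, (dig_top _ _ _ (hP.onT i h6 h7 (h8 ▸ hn)).2).2 h3⟩
    · rw [Finset.disjoint_filter]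
      intro κ _ h1 h2
      rw [hA p0 hP.pat0] at h1
      obtain ⟨⟨i, a1, a2, a3, a4⟩, -⟩ := h1
      obtain ⟨⟨i2, ⟨n, hn, b1, b2⟩, b3, b4⟩, -⟩ := h2
      have e1 : φ 0 i κ ≠ 0 := dig_ne _ _ _ a4
      have e2 : i = i2 := by
        rcases lt_trichotomy i i2 with h | h | h
        · exact absurd (b4 i h) e1
        · exact h
        · exact absurd (a3 i2 h) b3
      subst e2
      have e3 : (i - l1) / k = n := (tile_iff k l1 i n hk a1).1 ⟨b1, b2⟩
      exact dig_zero _ _ _ (hP.onT i a1 a2 (e3 ▸ hn)).1 a4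
  -- (ii) the volumes
  have htr : ∀ (p : Fin m → F) (j : Fin (D + 2)), tr φ ψ j (u j) p - tr φ ψ j (l j) p =
      ∑ i ∈ Ico (l j) (l j + w), ((ψ j i (φ j i p) : ℕ) : ℝ) / (Fintype.card F : ℝ) ^ (i + 1) := by
    intro p j
    rw [tr, tr, Finset.sum_Ico_eq_sub _ (by omega)]
  have hsucc : ∀ (p : Fin m → F), (∀ (j : Fin (D + 1)) (i : ℕ), l' j ≤ i → i < l' j + w →
        (ψ j.succ i (φ j.succ i p) : ℕ) =
          if Even ((i - l' j) / k) then Fintype.card F - 1 else 0) → ∀ j : Fin (D + 1),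
        tr φ ψ j.succ (u j.succ) p - tr φ ψ j.succ (l j.succ) p =
          ∑ n ∈ range (2 * L - 1 + 1), (-1 : ℝ) ^ n / (Fintype.card F : ℝ) ^ (l' j + k * n) := by
    intro p hp j
    rw [htr p j.succ]
    have e1 : l j.succ = l' j := by simp [hl]
    rw [e1, hPL, ← even_sum, ← win_sum _ hqpos k (l' j) hk, hw, hPL]
    refine Finset.sum_congr rfl fun i hi => ?_
    rw [Finset.mem_Ico] at hi
    have h1 : i < l' j + w := by rw [hw, hPL]; exact hi.2
    rw [hp j i hi.1 h1]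
    by_cases he : Even ((i - l' j) / k)
    · rw [if_pos he, if_pos he, Nat.cast_sub hq1, Nat.cast_one]
    · rw [if_neg he, if_neg he, Nat.cast_zero]
  have hzero : (tr φ ψ 0 (u 0) p1 - tr φ ψ 0 (l 0) p1) - (tr φ ψ 0 (u 0) p0 - tr φ ψ 0 (l 0) p0) =
      ∑ n ∈ T, (1 / (Fintype.card F : ℝ) ^ (l1 + k * n) -
        1 / (Fintype.card F : ℝ) ^ (l1 + k * (n + 1))) := by
    rw [htr p1 0, htr p0 0, ← Finset.sum_sub_distrib]
    have e1 : l 0 = l1 := by simp [hl]
    rw [e1]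
    have e2 : ∀ i ∈ Ico l1 (l1 + w), ((ψ 0 i (φ 0 i p1) : ℕ) : ℝ) / (Fintype.card F : ℝ) ^ (i + 1) -
        ((ψ 0 i (φ 0 i p0) : ℕ) : ℝ) / (Fintype.card F : ℝ) ^ (i + 1) =
        (if (i - l1) / k ∈ T then (Fintype.card F : ℝ) - 1 else 0) /
          (Fintype.card F : ℝ) ^ (i + 1) := by
      intro i hi
      rw [Finset.mem_Ico] at hi
      by_cases hT : (i - l1) / k ∈ T
      · rw [if_pos hT, (hP.onT i hi.1 hi.2 hT).1, (hP.onT i hi.1 hi.2 hT).2, Nat.cast_sub hq1,
          Nat.cast_one, Nat.cast_zero, zero_div, sub_zero]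
      · rw [if_neg hT, hP.offT i hi.1 hi.2 hT, sub_self, zero_div]
    rw [Finset.sum_congr rfl e2, hw, win_sum _ hqpos k l1 hk (fun n => n ∈ T),
      ← Finset.sum_filter]
    refine Finset.sum_congr ?_ fun _ _ => rfl
    ext n
    rw [Finset.mem_filter, Finset.mem_range]
    exact ⟨fun h => h.2, fun h => ⟨(hP.even n h).2, h⟩⟩
  have hvol : (Fintype.card F : ℝ) ^ m * (∏ j, (tr φ ψ j (u j) p1 - tr φ ψ j (l j) p1)) -
      (Fintype.card F : ℝ) ^ m * (∏ j, (tr φ ψ j (u j) p0 - tr φ ψ j (l j) p0)) =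
      vT F m k (2 * L - 1) l1 l' T := by
    rw [Fin.prod_univ_succ, Fin.prod_univ_succ (fun j => tr φ ψ j (u j) p0 - tr φ ψ j (l j) p0),
      Finset.prod_congr rfl (fun j _ => hsucc p1 hP.pat1 j),
      Finset.prod_congr rfl (fun j _ => hsucc p0 hP.pat0 j), vT, ← hzero]
    ring
  rw [hcount, Nat.cast_add] at hR1
  rw [← hvol]
  rw [abs_le] at hR0 hR1 ⊢
  constructor <;> linarith [hR0.1, hR0.2, hR1.1, hR1.2]

end Pool.Agent.Q174.DN
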